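import Pool.Agent.TouchU.General

set_option autoImplicit false

namespace Pool.Agent.TouchU

open Set Module Filter
open scoped Pointwise

variable {F : Type*} [NormedAddCommGroup F] [NormedSpace ℝ F]

/-- the functional of two touching translates -/
theorem exists_functional {K : Set F} (hK : Convex ℝ K) (hint : (interior K).Nonempty) {a b : F}
    (hdis : Disjoint (interior ((fun x => x + a) '' K)) (interior ((fun x => x + b) '' K))) :
    ∃ g : F →L[ℝ] ℝ, g (b - a) = 1 ∧ ∀ w ∈ K - K, g w ≤ 1 := by
  have hconv : ∀ c : F, Convex ℝ ((fun x => x + c) '' K) := fun c => by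
    have := hK.translate c
    have e : (fun x => x + c) '' K = (fun z => c + z) '' K := by
      apply image_congr; intro z _; exact add_comm z c
    rw [e]; exact this
  have hin : ∀ (c : F) (z : F), z ∈ interior K → z + c ∈ interior ((fun x => x + c) '' K) := by
    intro c z hz
    have e : (fun x => x + c) '' interior K ⊆ interior ((fun x => x + c) '' K) := by
      apply interior_maximal (image_mono interior_subset)
      exact (Homeomorph.addRight c).isOpenMap _ isOpen_interior
    exact e ⟨z, hz, rfl⟩
  have hcl : ∀ c : F, (fun x => x + c) '' K ⊆ closure (interior ((fun x => x + c) '' K)) := by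
    intro c
    obtain ⟨z, hz⟩ := hint
    exact (hconv c).closure_interior_eq_closure_of_nonempty_interior ⟨_, hin c z hz⟩ ▸
      subset_closure
  obtain ⟨f, u, hf1, hf2⟩ := geometric_hahn_banach_open_open (hconv a).interior isOpen_interior
    (hconv b).interior isOpen_interior hdis
  have h1 : ∀ z ∈ K, f (z + a) ≤ u := by
    intro z hz
    have : z + a ∈ closure (interior ((fun x => x + a) '' K)) := hcl a ⟨z, hz, rfl⟩
    exact (closure_minimal (fun y hy => (hf1 y hy).le)
      (isClosed_le f.continuous continuous_const)) this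
  have h2 : ∀ z ∈ K, u ≤ f (z + b) := by
    intro z hz
    have : z + b ∈ closure (interior ((fun x => x + b) '' K)) := hcl b ⟨z, hz, rfl⟩
    exact (closure_minimal (fun y hy => (hf2 y hy).le)
      (isClosed_le continuous_const f.continuous)) this
  obtain ⟨z, hz⟩ := hint
  have h3 : 0 < f (b - a) := by
    have e1 := hf1 _ (hin a z hz)
    have e2 := hf2 _ (hin b z hz)
    rw [map_add] at e1 e2
    rw [map_sub]; linarith
  refine ⟨(f (b - a))⁻¹ • f, ?_, ?_⟩
  · rw [ContinuousLinearMap.smul_apply, smul_eq_mul, inv_mul_cancel₀ h3.ne']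
  · rintro w ⟨p, hp, q, hq, rfl⟩
    rw [ContinuousLinearMap.smul_apply, smul_eq_mul, inv_mul_le_iff₀ h3, mul_one]
    have e1 := h1 p hp
    have e2 := h2 q hq
    rw [map_add] at e1 e2
    dsimp only
    rw [map_sub, map_sub]; linarith

/-- the separated family of pairwise touching translates -/
theorem sep_of_touch {K : Set F} (hKc : IsCompact K) (hK : Convex ℝ K)
    (hint : (interior K).Nonempty) {δ : ℝ} (hδ1 : δ ≤ 1 / 2)
    (hmod : ∀ u v : F, u ∈ frontier (K - K) → v ∈ frontier (K - K) → u - v ∈ frontier (K - K) →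
      (1 / 2 : ℝ) • (u + v) ∈ (1 - δ) • (K - K))
    {n : ℕ} (v : Fin n → F)
    (ht : ∀ i j : Fin n, i ≠ j →
      ((fun x => x + v i) '' K ∩ (fun x => x + v j) '' K).Nonempty ∧
      Disjoint (interior ((fun x => x + v i) '' K)) (interior ((fun x => x + v j) '' K))) :
    Sep (2 * δ) v := by
  have hmem : ∀ i j, v j - v i ∈ K - K := by
    intro i j
    by_cases hij : i = j
    · subst hij
      obtain ⟨z, hz⟩ := hint
      exact ⟨z, interior_subset hz, z, interior_subset hz, by simp⟩
    · obtain ⟨w, ⟨p, hp, rfl⟩, ⟨q, hq, hw⟩⟩ := (ht i j hij).1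
      refine ⟨p, hp, q, hq, ?_⟩
      dsimp only at hw ⊢
      have h1 : q + v j = p + v i := hw
      rw [sub_eq_sub_iff_add_eq_add, h1.symm.trans (add_comm _ _)]
  have hfr : ∀ i j, i ≠ j → v j - v i ∈ frontier (K - K) := by
    intro i j hij
    obtain ⟨g, hg1, hg2⟩ := exists_functional hK hint (ht i j hij).2
    refine ⟨subset_closure (hmem i j), fun hin => ?_⟩
    have hc : Tendsto (fun t : ℝ => t • (v j - v i)) (nhds 1) (nhds ((1 : ℝ) • (v j - v i))) :=
      (continuous_id.smul continuous_const).continuousAt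
    rw [one_smul] at hc
    have h1 : ∀ᶠ t in nhds (1 : ℝ), t • (v j - v i) ∈ K - K :=
      hc.eventually (mem_interior_iff_mem_nhds.mp hin)
    have h2 : ∀ᶠ t in nhdsWithin (1 : ℝ) (Ioi 1), t • (v j - v i) ∈ K - K :=
      h1.filter_mono nhdsWithin_le_nhds
    obtain ⟨t, h3, h4⟩ := (h2.and self_mem_nhdsWithin).exists
    have h5 := hg2 _ h3
    rw [map_smul, hg1, smul_eq_mul, mul_one] at h5
    exact absurd h4 (not_lt.mpr h5)
  intro i j hij
  obtain ⟨g, hg1, hg2⟩ := exists_functional hK hint (ht i j hij).2
  refine ⟨g, ?_, fun k hk => ?_, fun k hk => ?_⟩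
  · rw [map_sub] at hg1
    simp only [ContinuousLinearMap.coe_coe]
    linarith
  · simp only [ContinuousLinearMap.coe_coe]
    by_cases hkj : k = j
    · subst hkj
      rw [map_sub] at hg1
      linarith
    · obtain ⟨w, hw, hw2⟩ := hmod (v j - v i) (v j - v k) (hfr i j hij) (hfr k j hkj) (by
        rw [sub_sub_sub_cancel_left]
        exact hfr i k (Ne.symm hk))
      dsimp only at hw2
      have h1 : g ((1 / 2 : ℝ) • ((v j - v i) + (v j - v k))) ≤ 1 - δ := by
        rw [← hw2, map_smul, smul_eq_mul]
        have := hg2 w hw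
        nlinarith
      rw [map_smul, map_add, hg1, smul_eq_mul, map_sub] at h1
      rw [map_sub] at hg1
      linarith
  · simp only [ContinuousLinearMap.coe_coe]
    by_cases hki : k = i
    · subst hki; linarith
    · obtain ⟨w, hw, hw2⟩ := hmod (v j - v i) (v k - v i) (hfr i j hij) (hfr i k (Ne.symm hki)) (by
        rw [sub_sub_sub_cancel_right]
        exact hfr k j hk)
      dsimp only at hw2
      have h1 : g ((1 / 2 : ℝ) • ((v j - v i) + (v k - v i))) ≤ 1 - δ := by
        rw [← hw2, map_smul, smul_eq_mul]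
        have := hg2 w hw
        nlinarith
      rw [map_smul, map_add, hg1, smul_eq_mul, map_sub] at h1
      linarith

end Pool.Agent.TouchU
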