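import Mathlib

set_option autoImplicit false

namespace Pool.Agent.TouchU

open MeasureTheory Set Module

/-- for any two points of the family there is a linear functional which is larger by 1 at the second
point than at the first one, and takes values between these two, at distance at least eta from
both, at all the other ones -/
def Sep {E : Type*} [AddCommGroup E] [Module ℝ E] (η : ℝ) {m : ℕ} (x : Fin m → E) : Prop :=
  ∀ i j, i ≠ j → ∃ f : E →ₗ[ℝ] ℝ, f (x j) = f (x i) + 1 ∧
    (∀ k, k ≠ i → f (x i) + η ≤ f (x k)) ∧ ∀ k, k ≠ j → f (x k) ≤ f (x i) + (1 - η)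

section comb

variable {E : Type*} [AddCommGroup E] [Module ℝ E]

/-- the convex hull of the family, as the set of the convex combinations -/
def hull {m : ℕ} (x : Fin m → E) : Set E :=
  {p | ∃ l : Fin m → ℝ, (∀ k, 0 ≤ l k) ∧ ∑ k, l k = 1 ∧ p = ∑ k, l k • x k}

theorem mem_hull {m : ℕ} (x : Fin m → E) (i : Fin m) : x i ∈ hull x := by
  classical
  refine ⟨fun k => if k = i then 1 else 0, fun k => ?_, by simp, by simp⟩
  dsimp only
  split_ifs <;> norm_num

theorem convex_hull {m : ℕ} (x : Fin m → E) : Convex ℝ (hull x) := by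
  rintro p ⟨l, hl0, hl1, rfl⟩ q ⟨l', hl0', hl1', rfl⟩ a b ha hb hab
  refine ⟨fun k => a * l k + b * l' k, fun k => by have := hl0 k; have := hl0' k; positivity, ?_, ?_⟩
  · rw [Finset.sum_add_distrib, ← Finset.mul_sum, ← Finset.mul_sum, hl1, hl1']; linarith
  · rw [Finset.smul_sum, Finset.smul_sum, ← Finset.sum_add_distrib]
    refine Finset.sum_congr rfl fun k _ => ?_
    rw [add_smul, mul_smul, mul_smul]

/-- the copy of the hull shrunk by t towards the i-th point -/
def cop {m : ℕ} (x : Fin m → E) (t : ℝ) (i : Fin m) : Set E :=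
  {q | ∃ p ∈ hull x, q = (1 - t) • x i + t • p}

theorem cop_subset {m : ℕ} (x : Fin m → E) {t : ℝ} (h0 : 0 ≤ t) (h1 : t ≤ 1) (i : Fin m) :
    cop x t i ⊆ hull x := by
  rintro q ⟨p, hp, rfl⟩
  exact convex_hull x (mem_hull x i) hp (by linarith) h0 (by ring)

/-- the weights of the other point in an intersection -/
theorem weight {m : ℕ} {x : Fin m → E} {η t : ℝ} (ht : 0 < t) (hs : Sep η x) {i j : Fin m}
    (hij : i ≠ j) {q : E} {l l' : Fin m → ℝ} (hl0 : ∀ k, 0 ≤ l k) (hl1 : ∑ k, l k = 1)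
    (hq : q = (1 - t) • x i + t • ∑ k, l k • x k)
    (hl0' : ∀ k, 0 ≤ l' k) (hl1' : ∑ k, l' k = 1)
    (hq' : q = (1 - t) • x j + t • ∑ k, l' k • x k) :
    t * (η * (2 - l j - l' i)) ≤ 2 * t - 1 := by
  classical
  obtain ⟨f, hf1, hf2, hf3⟩ := hs i j hij
  have e1 : f q = (1 - t) * f (x i) + t * ∑ k, l k * f (x k) := by
    rw [hq]; simp [map_sum]
  have e2 : f q = (1 - t) * f (x j) + t * ∑ k, l' k * f (x k) := by
    rw [hq']; simp [map_sum]
  have h1 : f (x i) + η * (1 - l' i) ≤ ∑ k, l' k * f (x k) := by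
    have e3 : ∑ k, l' k * f (x k) = l' i * f (x i) + ∑ k ∈ Finset.univ.erase i, l' k * f (x k) := by
      rw [Finset.add_sum_erase _ (fun k => l' k * f (x k)) (Finset.mem_univ i)]
    have e4 : ∑ k ∈ Finset.univ.erase i, l' k = 1 - l' i := by
      rw [← hl1', ← Finset.add_sum_erase _ l' (Finset.mem_univ i)]; ring
    have e5 : (1 - l' i) * (f (x i) + η) ≤ ∑ k ∈ Finset.univ.erase i, l' k * f (x k) := by
      rw [← e4, Finset.sum_mul]
      exact Finset.sum_le_sum fun k hk =>
        mul_le_mul_of_nonneg_left (hf2 k (Finset.ne_of_mem_erase hk)) (hl0' k)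
    rw [e3]
    nlinarith
  have h2 : ∑ k, l k * f (x k) ≤ f (x i) + 1 - η * (1 - l j) := by
    have e3 : ∑ k, l k * f (x k) = l j * f (x j) + ∑ k ∈ Finset.univ.erase j, l k * f (x k) := by
      rw [Finset.add_sum_erase _ (fun k => l k * f (x k)) (Finset.mem_univ j)]
    have e4 : ∑ k ∈ Finset.univ.erase j, l k = 1 - l j := by
      rw [← hl1, ← Finset.add_sum_erase _ l (Finset.mem_univ j)]; ring
    have e5 : ∑ k ∈ Finset.univ.erase j, l k * f (x k) ≤ (1 - l j) * (f (x i) + (1 - η)) := by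
      rw [← e4, Finset.sum_mul]
      exact Finset.sum_le_sum fun k hk =>
        mul_le_mul_of_nonneg_left (hf3 k (Finset.ne_of_mem_erase hk)) (hl0 k)
    rw [e3, hf1]
    nlinarith
  have h3 := mul_le_mul_of_nonneg_left h2 ht.le
  have h4 := mul_le_mul_of_nonneg_left h1 ht.le
  rw [hf1] at e2
  nlinarith

/-- multiplicity at most r -/
theorem card_le {m : ℕ} {x : Fin m → E} {η t : ℝ} (ht : 0 < t) (hη : 0 ≤ η) (hs : Sep η x)
    {r : ℕ} (hr : 1 ≤ r) (htr : 2 * t - 1 < t * (2 * η * (1 - 1 / r))) (q : E)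
    (S : Finset (Fin m)) (hS : ∀ i ∈ S, q ∈ cop x t i) : S.card ≤ r := by
  classical
  by_contra hcon
  push Not at hcon
  have hr' : (0 : ℝ) < r := by exact_mod_cast hr
  have hS' : ∀ i ∈ S, ∃ l : Fin m → ℝ, (∀ k, 0 ≤ l k) ∧ ∑ k, l k = 1 ∧
      q = (1 - t) • x i + t • ∑ k, l k • x k := by
    intro i hi
    obtain ⟨p, ⟨l, hl0, hl1, rfl⟩, hq⟩ := hS i hi
    exact ⟨l, hl0, hl1, hq⟩
  choose! L hL0 hL1 hLq using hS'
  have key : ∀ p ∈ S.offDiag, 2 / (r : ℝ) < L p.1 p.2 + L p.2 p.1 := by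
    intro p hp
    obtain ⟨h1, h2, h3⟩ := Finset.mem_offDiag.mp hp
    have h := weight ht hs h3 (hL0 _ h1) (hL1 _ h1) (hLq _ h1) (hL0 _ h2) (hL1 _ h2) (hLq _ h2)
    have h4 : t * (η * (2 - L p.1 p.2 - L p.2 p.1)) < t * (η * (2 * (1 - 1 / r))) :=
      lt_of_le_of_lt h (by linarith)
    have h5 : η * (2 - L p.1 p.2 - L p.2 p.1) < η * (2 * (1 - 1 / r)) :=
      lt_of_mul_lt_mul_left h4 ht.le
    have h6 : 2 - L p.1 p.2 - L p.2 p.1 < 2 * (1 - 1 / r) := lt_of_mul_lt_mul_left h5 hη
    have h7 : 2 / (r : ℝ) = 2 * (1 / r) := by ring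
    rw [h7]; linarith
  have hne : S.offDiag.Nonempty := by
    obtain ⟨a, ha, b, hb, hab⟩ := Finset.one_lt_card.mp (show 1 < S.card by omega)
    exact ⟨(a, b), Finset.mem_offDiag.mpr ⟨ha, hb, hab⟩⟩
  have h1 := Finset.sum_lt_sum_of_nonempty hne key
  rw [Finset.sum_const, nsmul_eq_mul, Finset.sum_add_distrib] at h1
  have h2 : ∑ p ∈ S.offDiag, L p.2 p.1 = ∑ p ∈ S.offDiag, L p.1 p.2 := by
    refine Finset.sum_nbij' (fun p => (p.2, p.1)) (fun p => (p.2, p.1)) ?_ ?_ ?_ ?_ ?_
    · intro p hp; rw [Finset.mem_offDiag] at hp ⊢; exact ⟨hp.2.1, hp.1, hp.2.2.symm⟩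
    · intro p hp; rw [Finset.mem_offDiag] at hp ⊢; exact ⟨hp.2.1, hp.1, hp.2.2.symm⟩
    · intro p _; rfl
    · intro p _; rfl
    · intro p _; rfl
  have h3 : ∑ p ∈ S.offDiag, L p.1 p.2 ≤ S.card := by
    calc ∑ p ∈ S.offDiag, L p.1 p.2 ≤ ∑ p ∈ S ×ˢ Finset.univ, L p.1 p.2 := by
          refine Finset.sum_le_sum_of_subset_of_nonneg ?_ ?_
          · intro p hp
            rw [Finset.mem_product]
            exact ⟨(Finset.mem_offDiag.mp hp).1, Finset.mem_univ _⟩
          · intro p hp _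
            exact hL0 _ (Finset.mem_product.mp hp).1 _
      _ = ∑ i ∈ S, ∑ j, L i j := Finset.sum_product _ _ _
      _ = ∑ i ∈ S, 1 := Finset.sum_congr rfl fun i hi => hL1 i hi
      _ = S.card := by simp
  have h4 : (S.offDiag.card : ℝ) = S.card * (S.card - 1) := by
    rw [Finset.offDiag_card, Nat.cast_sub (Nat.le_mul_self _)]
    push_cast; ring
  rw [h2, h4] at h1
  have hcard : (r : ℝ) ≤ S.card - 1 := by
    have : (r : ℝ) + 1 ≤ S.card := by exact_mod_cast hcon
    linarith
  have hpos : (0 : ℝ) < S.card := by linarith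
  have h5 : (S.card : ℝ) * 2 ≤ S.card * (S.card - 1) * (2 / r) := by
    rw [mul_assoc]
    refine mul_le_mul_of_nonneg_left ?_ hpos.le
    rw [mul_div_assoc', le_div_iff₀ hr']
    linarith
  linarith

end comb

section meas

variable {E : Type*} [NormedAddCommGroup E] [NormedSpace ℝ E]

theorem isCompact_hull {m : ℕ} (x : Fin m → E) : IsCompact (hull x) := by
  have h : hull x = (fun l : Fin m → ℝ => ∑ k, l k • x k) '' stdSimplex ℝ (Fin m) := by
    ext p
    constructor
    · rintro ⟨l, h0, h1, rfl⟩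
      exact ⟨l, ⟨h0, h1⟩, rfl⟩
    · rintro ⟨l, ⟨h0, h1⟩, rfl⟩
      exact ⟨l, h0, h1, rfl⟩
  rw [h]
  exact (isCompact_stdSimplex ℝ (Fin m)).image (by fun_prop)

theorem cop_eq {m : ℕ} (x : Fin m → E) (t : ℝ) (i : Fin m) :
    cop x t i = AffineMap.homothety (x i) t '' hull x := by
  ext q
  constructor
  · rintro ⟨p, hp, rfl⟩
    refine ⟨p, hp, ?_⟩
    rw [AffineMap.homothety_apply, vsub_eq_sub, vadd_eq_add, smul_sub, sub_smul, one_smul]
    abel
  · rintro ⟨p, hp, rfl⟩
    refine ⟨p, hp, ?_⟩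
    rw [AffineMap.homothety_apply, vsub_eq_sub, vadd_eq_add, smul_sub, sub_smul, one_smul]
    abel

theorem isCompact_cop {m : ℕ} (x : Fin m → E) (t : ℝ) (i : Fin m) : IsCompact (cop x t i) := by
  rw [cop_eq]
  exact (isCompact_hull x).image (by
    have : (fun p => AffineMap.homothety (x i) t p) = fun p : E => t • (p - x i) + x i := by
      funext p; rw [AffineMap.homothety_apply, vsub_eq_sub, vadd_eq_add]
    change Continuous (fun p => AffineMap.homothety (x i) t p)
    rw [this]; fun_prop)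

variable [FiniteDimensional ℝ E] [MeasurableSpace E] [BorelSpace E]

theorem measure_cop {m : ℕ} (μ : Measure E) [μ.IsAddHaarMeasure] (x : Fin m → E) {t : ℝ}
    (ht : 0 ≤ t) (i : Fin m) :
    μ (cop x t i) = ENNReal.ofReal (t ^ finrank ℝ E) * μ (hull x) := by
  rw [cop_eq, Measure.addHaar_image_homothety, abs_of_nonneg (pow_nonneg ht _)]

/-- the bound at a single t -/
theorem bound_t {m : ℕ} {x : Fin m → E} (hint : (interior (hull x)).Nonempty) {η t : ℝ}
    (ht : 0 < t) (ht1 : t ≤ 1) (hη : 0 ≤ η) (hs : Sep η x)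
    {r : ℕ} (hr : 1 ≤ r) (htr : 2 * t - 1 < t * (2 * η * (1 - 1 / r))) :
    (m : ℝ) * t ^ finrank ℝ E ≤ r := by
  classical
  set μ : Measure E := Measure.addHaar with hμ
  have hP := isCompact_hull x
  have hPm : MeasurableSet (hull x) := hP.isClosed.measurableSet
  have hAm : ∀ i, MeasurableSet (cop x t i) := fun i => (isCompact_cop x t i).isClosed.measurableSet
  have hpos : 0 < μ (hull x) := by
    refine lt_of_lt_of_le (isOpen_interior.measure_pos μ hint) (measure_mono interior_subset)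
  have hfin : μ (hull x) ≠ ⊤ := hP.measure_lt_top.ne
  have h1 : ∑ i, μ (cop x t i) ≤ r * μ (hull x) := by
    calc ∑ i, μ (cop x t i) = ∑ i, ∫⁻ q, (cop x t i).indicator 1 q ∂μ := by
          refine Finset.sum_congr rfl fun i _ => ?_
          rw [lintegral_indicator_one (hAm i)]
      _ = ∫⁻ q, ∑ i, (cop x t i).indicator 1 q ∂μ := by
          rw [lintegral_finsetSum]
          intro i _
          exact measurable_one.indicator (hAm i)
      _ ≤ ∫⁻ q, (hull x).indicator (fun _ => (r : ENNReal)) q ∂μ := by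
          refine lintegral_mono fun q => ?_
          have e : ∑ i, (cop x t i).indicator (1 : E → ENNReal) q
              = ((Finset.univ.filter fun i => q ∈ cop x t i).card : ENNReal) := by
            rw [Finset.card_filter]
            push_cast
            refine Finset.sum_congr rfl fun i _ => ?_
            by_cases h : q ∈ cop x t i <;> simp [h]
          rw [e]
          by_cases hq : q ∈ hull x
          · rw [indicator_of_mem hq]
            refine Nat.cast_le.mpr ?_
            exact card_le ht hη hs hr htr q _ (fun i hi => (Finset.mem_filter.mp hi).2)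
          · have : (Finset.univ.filter fun i => q ∈ cop x t i) = ∅ := by
              rw [Finset.filter_eq_empty_iff]
              intro i _ hi
              exact hq (cop_subset x ht.le ht1 i hi)
            rw [this]; simp
      _ = r * μ (hull x) := by
          rw [lintegral_indicator_const hPm]
  simp only [measure_cop μ x ht.le, Finset.sum_const, Finset.card_univ, Fintype.card_fin,
    nsmul_eq_mul] at h1
  have h2 : (m : ENNReal) * ENNReal.ofReal (t ^ finrank ℝ E) ≤ r := by
    rw [← mul_assoc] at h1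
    exact (ENNReal.mul_le_mul_iff_left hpos.ne' hfin).mp h1
  have h3 := ENNReal.toReal_mono (by simp) h2
  rw [ENNReal.toReal_mul, ENNReal.toReal_natCast, ENNReal.toReal_natCast,
    ENNReal.toReal_ofReal (pow_nonneg ht.le _)] at h3
  exact h3

end meas

end Pool.Agent.TouchU
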