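import Pool.Agent.TouchU.Pair

set_option autoImplicit false

namespace Pool.Agent.TouchU

open MeasureTheory Set Module Filter

variable {F : Type*} [NormedAddCommGroup F] [NormedSpace ℝ F]

theorem subset_hull {m : ℕ} (x : Fin m → F) : convexHull ℝ (range x) ⊆ hull x :=
  convexHull_min (by rintro _ ⟨i, rfl⟩; exact mem_hull x i) (convex_hull x)

/-- the family in the space which it spans -/
theorem exists_span {m : ℕ} (x : Fin m → F) (i₀ : Fin m) :
    ∃ y : Fin m → vectorSpan ℝ (range x), (∀ k, (y k : F) = x k - x i₀) ∧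
      (interior (hull y)).Nonempty := by
  have hmem : ∀ k, x k - x i₀ ∈ vectorSpan ℝ (range x) := fun k =>
    vsub_mem_vectorSpan ℝ (mem_range_self k) (mem_range_self i₀)
  refine ⟨fun k => ⟨x k - x i₀, hmem k⟩, fun k => rfl, ?_⟩
  set V := vectorSpan ℝ (range x) with hV
  haveI : FiniteDimensional ℝ V := finiteDimensional_vectorSpan_range ℝ x
  set y : Fin m → V := fun k => ⟨x k - x i₀, hmem k⟩ with hy
  have hspan : Submodule.span ℝ (range y) = ⊤ := by
    apply Submodule.map_injective_of_injective (f := V.subtype) V.injective_subtype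
    have e := vectorSpan_range_eq_span_range_vsub_right ℝ x i₀
    rw [Submodule.map_span, Submodule.map_subtype_top, ← range_comp]
    exact e.symm
  have haff : affineSpan ℝ (range y) = ⊤ := by
    rw [AffineSubspace.affineSpan_eq_top_iff_vectorSpan_eq_top_of_nonempty ℝ V V
      ⟨_, mem_range_self i₀⟩, eq_top_iff, ← hspan, Submodule.span_le]
    rintro _ ⟨k, rfl⟩
    have h0 : y i₀ = 0 := by ext; simp [hy]
    have := vsub_mem_vectorSpan ℝ (mem_range_self (f := y) k) (mem_range_self i₀)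
    rw [h0, vsub_eq_sub, sub_zero] at this
    exact this
  exact (interior_convexHull_nonempty_iff_affineSpan_eq_top.mpr haff).mono
    (interior_mono (subset_hull y))

theorem sep_span {m : ℕ} {x : Fin m → F} {η : ℝ} (hs : Sep η x) {i₀ : Fin m}
    {y : Fin m → vectorSpan ℝ (range x)} (hy : ∀ k, (y k : F) = x k - x i₀) : Sep η y := by
  intro i j hij
  obtain ⟨f, h1, h2, h3⟩ := hs i j hij
  refine ⟨f.comp (Submodule.subtype _), ?_, fun k hk => ?_, fun k hk => ?_⟩
  · simp only [LinearMap.comp_apply, Submodule.subtype_apply, hy, map_sub, h1]; ring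
  · simp only [LinearMap.comp_apply, Submodule.subtype_apply, hy, map_sub]
    linarith [h2 k hk]
  · simp only [LinearMap.comp_apply, Submodule.subtype_apply, hy, map_sub]
    linarith [h3 k hk]

theorem general_bound {m : ℕ} {x : Fin m → F} {η : ℝ} (hη : 0 ≤ η) (hη1 : η ≤ 1 / 2)
    (hs : Sep η x) {d : ℕ} (hd : finrank ℝ (vectorSpan ℝ (range x)) ≤ d) {r : ℕ} (hr : 1 ≤ r) :
    (m : ℝ) ≤ r * (2 - 2 * η * (1 - 1 / r)) ^ d := by
  have hr' : (0 : ℝ) < r := by exact_mod_cast hr
  have hr1 : 1 / (r : ℝ) ≤ 1 := by rw [div_le_one hr']; exact_mod_cast hr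
  have hr0 : 0 < 1 / (r : ℝ) := by positivity
  have hB1 : 1 ≤ 2 - 2 * η * (1 - 1 / r) := by nlinarith [mul_nonneg hη hr0.le]
  rcases Nat.eq_zero_or_pos m with rfl | hm
  · have : (0 : ℝ) ≤ r * (2 - 2 * η * (1 - 1 / r)) ^ d := by positivity
    simpa using this
  · obtain ⟨y, hy, hint⟩ := exists_span x ⟨0, hm⟩
    haveI : FiniteDimensional ℝ (vectorSpan ℝ (range x)) := finiteDimensional_vectorSpan_range ℝ x
    letI : MeasurableSpace (vectorSpan ℝ (range x)) := borel _
    haveI : BorelSpace (vectorSpan ℝ (range x)) := ⟨rfl⟩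
    refine (bound hint hη hη1 (sep_span hs hy) hr).trans ?_
    gcongr

theorem general_lt {m : ℕ} {x : Fin m → F} {η : ℝ} (hη : 0 < η) (hη1 : η ≤ 1 / 2)
    (hs : Sep η x) {d : ℕ} (hd : finrank ℝ (vectorSpan ℝ (range x)) ≤ d) (hd2 : 2 ≤ d) :
    m < 2 ^ d := by
  rcases hd.lt_or_eq with h | h
  · have h1 := general_bound hη.le hη1 hs (le_refl (finrank ℝ (vectorSpan ℝ (range x))))
      (r := 1) le_rfl
    have h2 : m ≤ 2 ^ finrank ℝ (vectorSpan ℝ (range x)) := by
      have : (m : ℝ) ≤ 2 ^ finrank ℝ (vectorSpan ℝ (range x)) := by simpa using h1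
      exact_mod_cast this
    exact lt_of_le_of_lt h2 (Nat.pow_lt_pow_right (by norm_num) h)
  · rcases Nat.eq_zero_or_pos m with rfl | hm
    · positivity
    · obtain ⟨y, hy, hint⟩ := exists_span x ⟨0, hm⟩
      haveI : FiniteDimensional ℝ (vectorSpan ℝ (range x)) :=
        finiteDimensional_vectorSpan_range ℝ x
      letI : MeasurableSpace (vectorSpan ℝ (range x)) := borel _
      haveI : BorelSpace (vectorSpan ℝ (range x)) := ⟨rfl⟩
      have := lt_two_pow hint hη hη1 (sep_span hs hy) (by omega)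
      rwa [h] at this

/-- the number eps for a class with a given delta -/
theorem exists_eps {δ : ℝ} (hδ : 0 < δ) (hδ1 : δ ≤ 1 / 2) :
    ∃ ε : ℝ, 0 < ε ∧ ∀ d : ℕ, 2 ≤ d → ∀ m : ℕ, m < 2 ^ d → (m : ℝ) ≤ 2 * (2 - δ) ^ d →
      (m : ℝ) ≤ (2 - ε) ^ d := by
  have hq : 1 < (2 - δ / 2) / (2 - δ) := by
    rw [one_lt_div (by linarith)]; linarith
  obtain ⟨N, hN⟩ := ((tendsto_pow_atTop_atTop_of_one_lt hq).eventually_ge_atTop 2).exists_forall_of_atTop
  have h1 : ∀ d ∈ Finset.range N, ∀ᶠ ε in nhdsWithin (0 : ℝ) (Ioi 0),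
      (2 : ℝ) ^ d - 1 < (2 - ε) ^ d := by
    intro d _
    have hc : Tendsto (fun ε : ℝ => (2 - ε) ^ d) (nhdsWithin 0 (Ioi 0)) (nhds ((2 - 0) ^ d)) := by
      have : Continuous fun ε : ℝ => (2 - ε) ^ d := by fun_prop
      exact this.continuousWithinAt
    rw [sub_zero] at hc
    exact hc.eventually (lt_mem_nhds (by linarith))
  have h2 : ∀ᶠ ε in nhdsWithin (0 : ℝ) (Ioi 0), ε < δ / 2 :=
    (gt_mem_nhds (show (0 : ℝ) < δ / 2 by linarith)).filter_mono nhdsWithin_le_nhds
  have h3 := (Finset.eventually_all (Finset.range N)).mpr h1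
  obtain ⟨ε, ⟨h4, h5⟩, h6⟩ := ((h3.and h2).and self_mem_nhdsWithin).exists
  refine ⟨ε, h6, fun d hd m hm hm2 => ?_⟩
  rcases lt_or_ge d N with h | h
  · have e1 : (m : ℝ) ≤ 2 ^ d - 1 := by
      have : m + 1 ≤ 2 ^ d := hm
      have : ((m + 1 : ℕ) : ℝ) ≤ ((2 ^ d : ℕ) : ℝ) := by exact_mod_cast this
      push_cast at this
      linarith
    exact e1.trans (h4 d (Finset.mem_range.mpr h)).le
  · have e1 := hN d h
    rw [div_pow, le_div_iff₀ (pow_pos (by linarith) _)] at e1
    refine hm2.trans (e1.trans ?_)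
    apply pow_le_pow_left₀ (by linarith)
    linarith

end Pool.Agent.TouchU
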