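import Pool.Agent.TouchU.Core

set_option autoImplicit false

namespace Pool.Agent.TouchU

open MeasureTheory Set Module Filter

variable {E : Type*} [NormedAddCommGroup E] [NormedSpace ℝ E]
variable [FiniteDimensional ℝ E] [MeasurableSpace E] [BorelSpace E]

theorem bound {m : ℕ} {x : Fin m → E} (hint : (interior (hull x)).Nonempty) {η : ℝ}
    (hη : 0 ≤ η) (hη1 : η ≤ 1 / 2) (hs : Sep η x) {r : ℕ} (hr : 1 ≤ r) :
    (m : ℝ) ≤ r * (2 - 2 * η * (1 - 1 / r)) ^ finrank ℝ E := by
  have hr' : (0 : ℝ) < r := by exact_mod_cast hr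
  have hr1 : 1 / (r : ℝ) ≤ 1 := by rw [div_le_one hr']; exact_mod_cast hr
  have hr0 : 0 < 1 / (r : ℝ) := by positivity
  set B : ℝ := 2 - 2 * η * (1 - 1 / r) with hB
  have hB1 : 1 ≤ B := by nlinarith [mul_nonneg hη hr0.le]
  have h : ∀ s : ℝ, B < s → (m : ℝ) ≤ r * s ^ finrank ℝ E := by
    intro s hs'
    have hs0 : 0 < s := by linarith
    have h1 := bound_t hint (t := 1 / s) (by positivity) (by rw [div_le_one hs0]; linarith) hη hs hr
      (by
        rw [mul_one_div, one_div_mul_eq_div, sub_lt_iff_lt_add, div_lt_iff₀ hs0, add_mul,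
          div_mul_cancel₀ _ hs0.ne']
        linarith)
    rw [one_div, inv_pow, ← div_eq_mul_inv, div_le_iff₀ (pow_pos hs0 _)] at h1
    exact h1
  have hc : Tendsto (fun s : ℝ => (r : ℝ) * s ^ finrank ℝ E) (nhdsWithin B (Ioi B))
      (nhds (r * B ^ finrank ℝ E)) := by
    have : Continuous fun s : ℝ => (r : ℝ) * s ^ finrank ℝ E := by fun_prop
    exact this.continuousWithinAt
  refine ge_of_tendsto hc ?_
  filter_upwards [self_mem_nhdsWithin] with s hs'
  exact h s hs'

/-- an intersection of two copies lies in a small copy -/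
theorem inter_subset {m : ℕ} {x : Fin m → E} {η t : ℝ} (ht : 1 / 2 < t) (hη : 0 < η)
    (hs : Sep η x) {i j : Fin m} (hij : i ≠ j) :
    cop x t i ∩ cop x t j ⊆
      (fun p => ((1 - t) • x i + (t - (2 * t - 1) / η) • x j) + ((2 * t - 1) / η) • p) '' hull x := by
  classical
  rintro q ⟨⟨p, ⟨l, hl0, hl1, rfl⟩, hq⟩, ⟨p', ⟨l', hl0', hl1', rfl⟩, hq'⟩⟩
  have ht0 : 0 < t := by linarith
  have hw := weight ht0 hs hij hl0 hl1 hq hl0' hl1' hq'
  have hl1i : l' i ≤ 1 := by
    rw [← hl1']; exact Finset.single_le_sum (fun k _ => hl0' k) (Finset.mem_univ i)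
  set c : ℝ := (2 * t - 1) / η with hc
  have hc0 : 0 < c := div_pos (by linarith) hη
  have hcw : t * (1 - l j) ≤ c := by
    rw [hc, le_div_iff₀ hη]
    nlinarith [mul_nonneg (mul_nonneg ht0.le hη.le) (sub_nonneg.mpr hl1i)]
  refine ⟨∑ k, ((t * l k - if k = j then t - c else 0) / c) • x k,
    ⟨fun k => (t * l k - if k = j then t - c else 0) / c, fun k => ?_, ?_, rfl⟩, ?_⟩
  · apply div_nonneg _ hc0.le
    by_cases hk : k = j
    · subst hk; rw [if_pos rfl]; linarith
    · rw [if_neg hk, sub_zero]; exact mul_nonneg ht0.le (hl0 k)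
  · rw [← Finset.sum_div, Finset.sum_sub_distrib, ← Finset.mul_sum, hl1,
      Finset.sum_ite_eq' Finset.univ j, if_pos (Finset.mem_univ j), div_eq_one_iff_eq hc0.ne']
    ring
  · dsimp only
    rw [hq, Finset.smul_sum, Finset.smul_sum]
    have e : ∀ k, c • ((t * l k - if k = j then t - c else 0) / c) • x k
        = t • l k • x k - (if k = j then t - c else 0) • x k := by
      intro k
      rw [smul_smul, mul_div_cancel₀ _ hc0.ne', sub_smul, mul_smul]
    rw [Finset.sum_congr rfl fun k _ => e k, Finset.sum_sub_distrib]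
    have e2 : ∑ k, (if k = j then t - c else 0) • x k = (t - c) • x j := by
      simp [ite_smul]
    rw [e2]
    abel

theorem measure_small {m : ℕ} (μ : Measure E) [μ.IsAddHaarMeasure] (x : Fin m → E) {c : ℝ}
    (hc : 0 ≤ c) (v : E) :
    μ ((fun p => v + c • p) '' hull x) = ENNReal.ofReal (c ^ finrank ℝ E) * μ (hull x) := by
  have h : (fun p => v + c • p) '' hull x = (fun y => v + y) '' ((fun p => c • p) '' hull x) := by
    rw [image_image]
  rw [h, image_add_left, measure_preimage_add]
  have := Measure.addHaar_smul μ c (hull x)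
  rw [abs_of_nonneg (pow_nonneg hc _)] at this
  exact this

theorem pair_bound {m : ℕ} {x : Fin m → E} (hint : (interior (hull x)).Nonempty) {η t : ℝ}
    (ht : 1 / 2 < t) (ht1 : t ≤ 1) (hη : 0 < η) (hs : Sep η x) :
    (m : ℝ) * t ^ finrank ℝ E ≤ 1 + m * (m * ((2 * t - 1) / η) ^ finrank ℝ E) := by
  classical
  have ht0 : 0 < t := by linarith
  set μ : Measure E := Measure.addHaar with hμ
  have hP := isCompact_hull x
  have hPm : MeasurableSet (hull x) := hP.isClosed.measurableSet
  have hAm : ∀ i, MeasurableSet (cop x t i) := fun i => (isCompact_cop x t i).isClosed.measurableSet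
  have hpos : 0 < μ (hull x) := by
    refine lt_of_lt_of_le (isOpen_interior.measure_pos μ hint) (measure_mono interior_subset)
  have hfin : μ (hull x) ≠ ⊤ := hP.measure_lt_top.ne
  have hc0 : 0 ≤ (2 * t - 1) / η := div_nonneg (by linarith) hη.le
  set c : ℝ := (2 * t - 1) / η with hc
  set Q : Finset (Fin m × Fin m) := Finset.univ.filter fun p => p.1 ≠ p.2 with hQ
  have h1 : ∑ i, μ (cop x t i) ≤ μ (hull x) + ∑ p ∈ Q, μ (cop x t p.1 ∩ cop x t p.2) := by
    calc ∑ i, μ (cop x t i) = ∑ i, ∫⁻ q, (cop x t i).indicator 1 q ∂μ := by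
          refine Finset.sum_congr rfl fun i _ => ?_
          rw [lintegral_indicator_one (hAm i)]
      _ = ∫⁻ q, ∑ i, (cop x t i).indicator 1 q ∂μ := by
          rw [lintegral_finsetSum]
          intro i _
          exact measurable_one.indicator (hAm i)
      _ ≤ ∫⁻ q, ((hull x).indicator 1 q + ∑ p ∈ Q, (cop x t p.1 ∩ cop x t p.2).indicator 1 q) ∂μ := by
          refine lintegral_mono fun q => ?_
          dsimp only
          set S : Finset (Fin m) := Finset.univ.filter fun i => q ∈ cop x t i with hS
          have e : ∑ i, (cop x t i).indicator (1 : E → ENNReal) q = (S.card : ENNReal) := by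
            rw [hS, Finset.card_filter]
            push_cast
            refine Finset.sum_congr rfl fun i _ => ?_
            by_cases h : q ∈ cop x t i <;> simp [h]
          have e2 : ∑ p ∈ Q, (cop x t p.1 ∩ cop x t p.2).indicator (1 : E → ENNReal) q
              = (S.offDiag.card : ENNReal) := by
            have : S.offDiag = Q.filter fun p => q ∈ cop x t p.1 ∩ cop x t p.2 := by
              ext p
              simp only [Finset.mem_offDiag, hS, hQ, Finset.mem_filter, Finset.mem_univ, true_and,
                mem_inter_iff]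
              tauto
            rw [this, Finset.card_filter]
            push_cast
            refine Finset.sum_congr rfl fun p _ => ?_
            by_cases h : q ∈ cop x t p.1 ∩ cop x t p.2 <;> simp [h]
          rw [e, e2]
          by_cases hq : q ∈ hull x
          · rw [indicator_of_mem hq, Pi.one_apply]
            have : S.card ≤ 1 + S.offDiag.card := by
              rw [Finset.offDiag_card]
              rcases Nat.eq_zero_or_pos S.card with h0 | h0
              · omega
              · obtain ⟨k, hk⟩ : ∃ k, S.card = k + 1 := ⟨S.card - 1, by omega⟩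
                rw [hk]
                have : (k + 1) * (k + 1) - (k + 1) = k * (k + 1) := by
                  rw [Nat.sub_eq_iff_eq_add (by nlinarith)]; ring
                rw [this]
                nlinarith
            exact_mod_cast this
          · have : S = ∅ := by
              rw [hS, Finset.filter_eq_empty_iff]
              intro i _ hi
              exact hq (cop_subset x ht0.le ht1 i hi)
            rw [this]; simp
      _ = μ (hull x) + ∑ p ∈ Q, μ (cop x t p.1 ∩ cop x t p.2) := by
          rw [lintegral_add_left (measurable_one.indicator hPm), lintegral_indicator_one hPm,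
            lintegral_finsetSum]
          · congr 1
            refine Finset.sum_congr rfl fun p _ => ?_
            rw [lintegral_indicator_one ((hAm _).inter (hAm _))]
          · intro p _
            exact measurable_one.indicator ((hAm _).inter (hAm _))
  have h2 : ∑ p ∈ Q, μ (cop x t p.1 ∩ cop x t p.2)
      ≤ (m * m : ENNReal) * (ENNReal.ofReal (c ^ finrank ℝ E) * μ (hull x)) := by
    calc ∑ p ∈ Q, μ (cop x t p.1 ∩ cop x t p.2)
        ≤ ∑ p ∈ Q, ENNReal.ofReal (c ^ finrank ℝ E) * μ (hull x) := by
          refine Finset.sum_le_sum fun p hp => ?_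
          have hne : p.1 ≠ p.2 := (Finset.mem_filter.mp hp).2
          refine (measure_mono (inter_subset ht hη hs hne)).trans ?_
          rw [measure_small μ x hc0]
      _ = (Q.card : ENNReal) * (ENNReal.ofReal (c ^ finrank ℝ E) * μ (hull x)) := by
          rw [Finset.sum_const, nsmul_eq_mul]
      _ ≤ _ := by
          gcongr
          have : Q.card ≤ m * m := by
            refine (Finset.card_filter_le _ _).trans ?_
            simp
          exact_mod_cast this
  have h3 := h1.trans (add_le_add le_rfl h2)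
  simp only [measure_cop μ x ht0.le, Finset.sum_const, Finset.card_univ, Fintype.card_fin,
    nsmul_eq_mul] at h3
  have h4 : (m : ENNReal) * ENNReal.ofReal (t ^ finrank ℝ E)
      ≤ 1 + (m * m : ENNReal) * ENNReal.ofReal (c ^ finrank ℝ E) := by
    rw [← mul_assoc, ← mul_assoc] at h3
    nth_rewrite 2 [← one_mul (μ (hull x))] at h3
    rw [← add_mul] at h3
    exact (ENNReal.mul_le_mul_iff_left hpos.ne' hfin).mp h3
  have h5 := ENNReal.toReal_mono (by finiteness) h4
  rw [ENNReal.toReal_mul, ENNReal.toReal_natCast, ENNReal.toReal_add (by simp) (by finiteness),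
    ENNReal.toReal_ofReal (pow_nonneg ht0.le _), ENNReal.toReal_mul, ENNReal.toReal_mul,
    ENNReal.toReal_natCast, ENNReal.toReal_ofReal (pow_nonneg hc0 _), ENNReal.toReal_one,
    mul_assoc] at h5
  exact h5

theorem lt_two_pow {m : ℕ} {x : Fin m → E} (hint : (interior (hull x)).Nonempty) {η : ℝ}
    (hη : 0 < η) (hη1 : η ≤ 1 / 2) (hs : Sep η x) (hn : 2 ≤ finrank ℝ E) :
    m < 2 ^ finrank ℝ E := by
  by_contra hcon
  push Not at hcon
  set n := finrank ℝ E with hn'
  have h1 := bound hint hη.le hη1 hs (r := 1) le_rfl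
  have hm : (m : ℝ) = 2 ^ n := by
    apply le_antisymm
    · simpa using h1
    · exact_mod_cast hcon
  set s : ℝ := (η / 4) ^ n with hs'
  have hs0 : 0 < s := by positivity
  have hs1 : s ≤ 1 := pow_le_one₀ (by positivity) (by linarith)
  have h2 := pair_bound hint (t := (1 + s) / 2) (by linarith) (by linarith) hη hs
  rw [← hn', hm, show 2 * ((1 + s) / 2) - 1 = s by ring, ← mul_pow,
    show (2 : ℝ) * ((1 + s) / 2) = 1 + s by ring, ← mul_pow, ← mul_pow] at h2
  have h3 : (2 * (2 * (s / η))) ^ n = s ^ n / s := by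
    rw [eq_div_iff hs0.ne']
    nth_rewrite 2 [hs']
    rw [← mul_pow]
    congr 1
    field_simp
    norm_num
  rw [h3] at h2
  have h4 := one_add_mul_le_pow (a := s) (by linarith) n
  obtain ⟨k, hk⟩ : ∃ k, n = k + 2 := ⟨n - 2, by omega⟩
  have h5 : s ^ n / s ≤ s := by
    rw [div_le_iff₀ hs0, hk, pow_add, ← pow_two]
    have := pow_le_one₀ (n := k) hs0.le hs1
    nlinarith [pow_pos hs0 2]
  have h6 : (n : ℝ) ≥ 2 := by exact_mod_cast hn
  nlinarith

end Pool.Agent.TouchU
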